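import Pool.Agent.H228R5.Euclid

set_option autoImplicit false

namespace Pool.Agent.Results.MP_0f46a6_co.SubtransitiveCanonical

/-- `Z` is a finite transitive set: it is finite and for any two of its points some isometry of
the space maps `Z` onto itself and the first point to the second. -/
def IsTransitiveSet {m : ℕ} (Z : Set (EuclideanSpace ℝ (Fin m))) : Prop :=
  Z.Finite ∧ ∀ x ∈ Z, ∀ y ∈ Z, ∃ g : EuclideanSpace ℝ (Fin m) ≃ᵢ EuclideanSpace ℝ (Fin m),
    ⇑g '' Z = Z ∧ g x = y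

/-- `X` is subtransitive: it is congruent to a subset of a finite transitive set, in a Euclidean
space of any dimension. -/
def IsSubtransitive {d : ℕ} (X : Set (EuclideanSpace ℝ (Fin d))) : Prop :=
  ∃ (m : ℕ) (Z : Set (EuclideanSpace ℝ (Fin m)))
    (h : EuclideanSpace ℝ (Fin d) → EuclideanSpace ℝ (Fin m)), IsTransitiveSet Z ∧
    (∀ x ∈ X, h x ∈ Z) ∧ ∀ x ∈ X, ∀ y ∈ X, dist (h x) (h y) = dist x y

/-- `X` is canonically Ramsey: in some `ℝ^n` every colouring, with any set of colours, has a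
congruent copy of `X` which is monochromatic or rainbow. -/
def IsCanonicallyRamsey {d : ℕ} (X : Set (EuclideanSpace ℝ (Fin d))) : Prop :=
  ∃ n : ℕ, ∀ (C : Type) (c : EuclideanSpace ℝ (Fin n) → C),
    ∃ g : EuclideanSpace ℝ (Fin d) → EuclideanSpace ℝ (Fin n),
      (∀ x ∈ X, ∀ y ∈ X, dist (g x) (g y) = dist x y) ∧
      ((∀ x ∈ X, ∀ y ∈ X, c (g x) = c (g y)) ∨ Set.InjOn (fun x => c (g x)) X)

/-- Every subtransitive set is canonically Ramsey. -/
theorem result (d : ℕ) (X : Set (EuclideanSpace ℝ (Fin d))) (hX : IsSubtransitive X) :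
    IsCanonicallyRamsey X := by
  obtain ⟨m, Z, h, ⟨hZ, htr⟩, hXZ, hiso⟩ := hX
  obtain ⟨n, hn⟩ := Pool.Agent.H228R5.canon_euclid m Z hZ htr
  refine ⟨n, fun C c => ?_⟩
  obtain ⟨g, hg, hcol⟩ := hn (fun a b => c a = c b)
    ⟨fun _ => rfl, fun h => h.symm, fun h h' => h.trans h'⟩
  refine ⟨fun x => g (h x), ?_, ?_⟩
  · intro x hx y hy
    rw [hg _ (hXZ x hx) _ (hXZ y hy), hiso x hx y hy]
  · rcases hcol with h1 | h1
    · left
      intro x hx y hy
      exact h1 _ (hXZ x hx) _ (hXZ y hy)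
    · right
      intro x hx y hy hxy
      have h2 := h1 _ (hXZ x hx) _ (hXZ y hy) hxy
      have h3 := hiso x hx y hy
      rw [h2, dist_self] at h3
      exact dist_eq_zero.1 h3.symm

end Pool.Agent.Results.MP_0f46a6_co.SubtransitiveCanonical
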